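import Pool.Agent.Q203.TCA.Main

/-!
# Every nonsmooth countable Borel equivalence relation has a transitive action realization

Every nonsmooth countable Borel equivalence relation (in particular every nonsmooth aperiodic one)
on a standard Borel space is Borel isomorphic to the orbit equivalence relation of a continuous
action of a countable group, with a dense orbit, on a Polish space without isolated points.
-/

set_option autoImplicit false

namespace Pool.Agent.Results.MP_06d84d_lc.TransitiveRealization

/-- Countable Borel equivalence relations. -/
structure IsCBER {X : Type} [MeasurableSpace X] (E : X → X → Prop) : Prop where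
  equivalence : Equivalence E
  borel : MeasurableSet {p : X × X | E p.1 p.2}
  countable_classes : ∀ x, {y | E x y}.Countable

/-- `E` is smooth: it is the kernel of a Borel map to the reals. -/
def Smooth {X : Type} [MeasurableSpace X] (E : X → X → Prop) : Prop :=
  ∃ f : X → ℝ, Measurable f ∧ ∀ x y, E x y ↔ f x = f y

/-- `F` on the topological space `Y` is the orbit equivalence relation of a continuous action of a
countable group on `Y`, and some orbit of this action is dense. -/
def TransitiveOrbitRelation {Y : Type} [TopologicalSpace Y] (F : Y → Y → Prop) : Prop :=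
  ∃ (G : Type) (_ : Group G) (_ : Countable G) (_ : MulAction G Y),
    (∀ g : G, Continuous fun y : Y => g • y) ∧
    (∀ y z : Y, F y z ↔ ∃ g : G, g • y = z) ∧
    ∃ y : Y, Dense (MulAction.orbit G y)

/-- Every nonsmooth countable Borel equivalence relation `E` has a transitive continuous action
realization: a Borel isomorphic copy on a Polish space `Y` which is the orbit equivalence relation of
a continuous action of a countable group with a dense orbit. Moreover `Y` can be taken without
isolated points. (Aperiodicity of `E` is not needed.) -/
theorem result {X : Type} [MeasurableSpace X] [StandardBorelSpace X] (E : X → X → Prop)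
    (hE : IsCBER E) (hns : ¬ Smooth E) :
    ∃ (Y : Type) (_ : TopologicalSpace Y) (_ : PolishSpace Y) (_ : MeasurableSpace Y)
      (_ : BorelSpace Y) (F : Y → Y → Prop),
      TransitiveOrbitRelation F ∧ (∀ y : Y, ¬ IsOpen ({y} : Set Y)) ∧
      ∃ φ : X ≃ᵐ Y, ∀ x x' : X, E x x' ↔ F (φ x) (φ x') := by
  obtain ⟨Y, h1, h2, h3, h4, G, h5, h6, h7, h8, h9, h10, φ, h11⟩ :=
    Q203.TCA.main E hE.equivalence hE.borel hE.countable_classes hns
  exact ⟨Y, h1, h2, h3, h4, fun y z => ∃ g : G, g • y = z,
    ⟨G, h5, h6, h7, h8, fun _ _ => Iff.rfl, h10⟩, h9, φ, h11⟩

end Pool.Agent.Results.MP_06d84d_lc.TransitiveRealization
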